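import Mathlib
import Pool.Agent.H.MP_2aac2f_an.A

set_option autoImplicit false

namespace Pool.Agent.Results.MP_2aac2f_an.No

open Set Filter Topology TopologicalSpace Pool.Agent.H.MP_2aac2f_an
open scoped ENNReal

/-- E is an (n, ε)-spanning set -/
def IsSpan {Y : Type} [MetricSpace Y] (T : Y → Y) (n : ℕ) (ε : ℝ) (E : Finset Y) : Prop :=
  ∀ x, ∃ y ∈ E, ∀ i < n, dist (T^[i] x) (T^[i] y) < ε

/-- linear order of growth -/
def LinearGrowth {Y : Type} [MetricSpace Y] (T : Y → Y) : Prop :=
  (∀ ε > 0, ∃ C : ℕ, ∀ n ≥ 1, ∃ E, IsSpan T n ε E ∧ E.card ≤ C * n) ∧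
    ∃ ε > 0, ∀ n E, IsSpan T n ε E → n ≤ E.card

theorem poly (a K : ℕ) :
    ExpGrowth.expGrowthSup (fun n : ℕ => (((n + a + 1) ^ K : ℕ) : ℝ≥0∞)) = 0 := by
  have h1 : Tendsto (fun n : ℕ => Real.log ((n : ℝ) + (a + 1)) / (1 * ((n : ℝ) + (a + 1)) + -(a + 1)))
      atTop (𝓝 0) := by
    simpa only [pow_one, Function.comp_def] using
      (Real.tendsto_pow_log_div_mul_add_atTop 1 (-(a + 1)) 1 one_ne_zero).comp
        (tendsto_atTop_add_const_right _ ((a : ℝ) + 1) tendsto_natCast_atTop_atTop)
  have h2 := (continuous_coe_real_ereal.tendsto _).comp (h1.const_mul (K : ℝ))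
  rw [mul_zero] at h2
  refine Tendsto.limsup_eq (h2.congr fun n => ?_)
  beta_reduce
  rw [← ENNReal.ofReal_natCast, ENNReal.log_ofReal_of_pos (by positivity), Function.comp_apply,
    ← EReal.coe_coe_eq_natCast, ← EReal.coe_div]
  congr 1
  push_cast
  rw [Real.log_pow]; ring_nf

theorem result : ∃ (Y : Type) (_ : MetricSpace Y) (_ : CompactSpace Y) (T : Y → Y)
    (hT : Continuous T), LinearGrowth T ∧
      Dynamics.coverEntropy (NonemptyCompacts.map T hT) Set.univ = 0 := by
  classical
  refine ⟨X, inferInstance, inferInstance, T, T_cont, ⟨fun ε hε => ?_, 1, one_pos,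
    fun n E h => ?_⟩, ?_⟩
  · obtain ⟨L, hL⟩ := exists_pow_lt_of_lt_one hε (show (1 / 2 : ℝ) < 1 by norm_num)
    refine ⟨L + 2, fun n hn => ⟨(R (n + L)).image pt, fun x => ?_, ?_⟩⟩
    · obtain ⟨r, r1, r2⟩ := dense x (n + L)
      exact ⟨pt r, Finset.mem_image_of_mem _ r1, fun i hi =>
        (dist_le i fun j hj => (r2 _ (by omega)).symm).trans_lt hL⟩
    · refine (Finset.card_image_le.trans (R_card _)).trans ?_
      nlinarith
  · choose y y1 y2 using h
    have := Finset.card_le_card_of_injOn (s := Finset.range n) (t := E)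
      (fun i : ℕ => y (pt (Int.fract (-((i + 1 : ℕ) * √2))))) (fun i _ => y1 _)
      fun i hi k hk e => sep (by simpa using hi) (by simpa using hk) fun j hj => by
        have a := eq_of_lt j (y2 (pt (Int.fract (-((i + 1 : ℕ) * √2)))) j hj)
        have b := eq_of_lt j (y2 (pt (Int.fract (-((k + 1 : ℕ) * √2)))) j hj)
        simp only at e
        rw [e] at a
        exact a.trans b.symm
    simpa using this
  · have : Nonempty X := ⟨pt 0⟩
    refine le_antisymm ?_ (Dynamics.coverEntropy_nonneg _ univ_nonempty)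
    rw [Dynamics.coverEntropy_eq_iSup_basis Metric.uniformity_basis_dist]
    refine iSup₂_le fun ε hε => ?_
    obtain ⟨L, hL⟩ := exists_pow_lt_of_lt_one hε (show (1 / 2 : ℝ) < 1 by norm_num)
    obtain ⟨K, hK⟩ := hyper L
    rw [← poly L K]
    refine ExpGrowth.expGrowthSup_monotone fun n => ?_
    obtain ⟨E, e1, e2⟩ := hK n
    have it : ∀ (s : ℕ) (W : NonemptyCompacts X),
        (((NonemptyCompacts.map T T_cont)^[s] W : NonemptyCompacts X) : Set X) = T^[s] '' W := by
      intro s
      induction s with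
      | zero => simp
      | succ s ih => intro W; rw [Function.iterate_succ_apply, ih, Function.iterate_succ,
          image_comp]; rfl
    have c : Dynamics.IsDynCoverOf (NonemptyCompacts.map T T_cont) univ
        {p | dist p.1 p.2 < ε} n E := fun W _ => by
      obtain ⟨V, v1, v2⟩ := e2 W
      refine ⟨V, v1, Dynamics.mem_dynEntourage.2 fun s hs => ?_⟩
      rw [mem_ofPred_eq, Metric.NonemptyCompacts.dist_eq, it, it]
      exact (v2 s hs).trans_lt hL
    have := ENat.toENNReal_mono (c.coverMincard_le_card.trans (Nat.cast_le.2 e1))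
    simpa only [ENat.toENNReal_coe] using this

end Pool.Agent.Results.MP_2aac2f_an.No
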